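import Mathlib
import Pool.Agent.H5.LqRigid2

namespace Pool.Agent.Results.MP_7ac2f5_co.HamCycles

open Pool.Agent.H5.LqRigid

theorem result :
    (HamDecomp (⊤ : SimpleGraph (Fin 5)) 2 ∧
      ∀ p : Fin 5 → Fin 2 → ℝ, ¬ RedRigid ⊤ (⊤ : SimpleGraph (Fin 5)) p) ∧
    (∀ (d n : ℕ) (G : SimpleGraph (Fin n)), 2 ≤ d → HamDecomp G d →
      ∃ q : ENNReal, 1 ≤ q ∧ q ≠ 2 ∧ ∃ p : Fin n → Fin d → ℝ, RedRigid q G p) := by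
  refine ⟨⟨k5_ham, not_red⟩, ?_⟩
  intro d n G hd hG
  obtain ⟨s, p, hp⟩ := exists_red (by omega) G hG
  refine ⟨_, ?_, ?_, p, hp⟩
  · exact_mod_cast (by omega : 1 ≤ 2 * s + 4)
  · exact_mod_cast (by omega : 2 * s + 4 ≠ 2)

end Pool.Agent.Results.MP_7ac2f5_co.HamCycles
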